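import Mathlib
import Pool.Agent.MF.LemT
import Pool.Agent.MF.EndAlg

set_option autoImplicit false

/-!
# MP_141f81, Section 9: the structure between the rows and the algebra, and the assembly of `StmtEnd`

`EndX δ C` is everything that the row side delivers (constants `δ`, `C` do not depend on `n`).
`RowsEndX`   : rows (`EMOut`) ⟹ `EndX δ C` with `n ≤ K * card U`.
`EndXBound`  : `card U` is bounded for every `EndX δ C`.
-/

namespace Pool.Agent.MF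

open Pool.Agent.MF.LemT (nr kr)

/-- the full output of the row side (after the commutator step); `nr f` = number of elements of the range of `f`,
`kr f` = kernel of `f`.  `L` is additive on all of `U` up to bounded range; products and rules only for `u ∈ W`,
`W` of bounded index; the values `φ u`, `g u`, `s u`, `Θ u`, `Z u` may leave `W`, the product `x` is in `W`. -/
structure EndX (δ : ℝ) (C : ℕ) where
  U : Type
  [ag : AddCommGroup U]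
  [ft : Fintype U]
  [de : DecidableEq U]
  two : ∀ u : U, u + u = 0
  W : AddSubgroup U
  hW : W.index ≤ C
  L : U → AddMonoid.End U
  rL : ∀ u v : U, nr (L (u + v) + (L u + L v)) ≤ C
  comm : ∀ u ∈ W, ∀ v ∈ W, nr (L u * L v + L v * L u) ≤ C
  dom : ∀ u ∈ W, ∃ D : AddSubgroup U, D ≤ W ∧ D.index ≤ C ∧ ∀ v ∈ D, ∃ x ∈ W, nr (L u * L v + L x) ≤ C
  -- the square and the labels
  φ : AddMonoid.End U
  g : AddMonoid.End U
  s : AddMonoid.End U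
  Θ : AddMonoid.End U
  Z : AddMonoid.End U
  kφ : Nat.card (kr φ) ≤ C
  kφ1 : Nat.card (kr (φ + 1)) ≤ C
  kg : Nat.card (kr g) ≤ C
  ks : Nat.card (kr s) ≤ C
  kΘ : Nat.card (kr Θ) ≤ C
  kZ : Nat.card (kr Z) ≤ C
  hS : ∀ u ∈ W, nr (L (φ u) + L u * L u) ≤ C
  hφ : ∀ u ∈ W, nr (φ * L u + L (φ u) * φ) ≤ C
  hg : ∀ u ∈ W, nr (g * L u + L (g u) * g) ≤ C
  hs : ∀ u ∈ W, nr (s * L u + L (s u) * s) ≤ C
  hΘ : ∀ u ∈ W, nr (Θ * L u + L (Θ u)) ≤ C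
  hZ : ∀ u ∈ W, nr (Z * L u + L (Z u)) ≤ C
  gT : nr (g * Θ + Z * Θ * g) ≤ C
  sT : nr (s * (Θ * Θ * Θ) + Θ * s) ≤ C
  zz : nr (Z * Z + Z + 1) ≤ C
  -- the rows (for the bound (J))
  B : Finset (U × U)
  hB : δ * (Fintype.card U : ℝ) ^ 2 ≤ (B.card : ℝ)
  A1 : U → AddMonoid.End U
  A2 : U → AddMonoid.End U
  A3 : U → AddMonoid.End U
  c1 : U → U
  c2 : U → U
  c3 : U → U
  c0 : U
  id1 : ∀ p ∈ B, φ p.1 + c0 = (A2 p.2 p.1 + c2 p.2) + (A1 p.1 (p.1 + p.2) + c1 p.1)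
  id2 : ∀ p ∈ B, A3 (p.1 + p.2) p.1 + c3 (p.1 + p.2) = A1 p.1 (p.1 + p.2) + c1 p.1
  r0 : ∀ p ∈ B, nr (A1 p.1 + A2 p.2 + A3 (p.1 + p.2)) ≤ C
  r1 : ∀ p ∈ B, ∀ p' ∈ B, nr (A1 p.1 + A1 p'.1 + L (p.1 + p'.1)) ≤ C
  r2 : ∀ p ∈ B, ∀ p' ∈ B, nr (A2 p.2 + A2 p'.2 + L (p.2 + p'.2)) ≤ C
  r3 : ∀ p ∈ B, ∀ p' ∈ B, nr (A3 (p.1 + p.2) + A3 (p'.1 + p'.2) + L ((p.1 + p.2) + (p'.1 + p'.2))) ≤ C

attribute [instance] EndX.ag EndX.ft EndX.de

/-- the row side (`KillAlg` gives `LinPart` and `a`, `b`) -/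
def RowsEndX (J : ℕ) : Prop := ∀ (N : Type) [AddCommGroup N] [Fintype N] [DecidableEq N] (M : Mat N) (Lin : Finset N)
  (a b : N) (D : ℕ → AddSubgroup N) (mul : N → N → N) (sq th ze g s : N → N),
  KillAlg M Lin a b (mul a) (mul b) sq → EndAlg M Lin J D mul sq th ze g s →
  ∀ T : ℕ, ∃ (δ : ℝ) (C K : ℕ), 0 < δ ∧
  ∀ (n : ℕ) (R S : Finset (N → Fin n)) (U : Type) (_ : AddCommGroup U) (_ : Fintype U) (_ : DecidableEq U)
    (π : N → Fin n → U), 0 < n → EMOut M n T R S U π → ∃ X : EndX δ C, n ≤ K * Fintype.card X.U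

/-- the algebra side -/
def EndXBound : Prop := ∀ (δ : ℝ) (C : ℕ), 0 < δ → ∃ N0 : ℕ, ∀ X : EndX δ C, Fintype.card X.U ≤ N0

/-- **the assembly of `StmtEnd`** -/
theorem stmtEnd_of {J : ℕ} (hA : RowsEndX J) (hB : EndXBound) (N : Type) [AddCommGroup N] [Fintype N]
    [DecidableEq N] (M : Mat N) (Lin : Finset N) (a b : N) (D : ℕ → AddSubgroup N) (mul : N → N → N)
    (sq th ze g s : N → N) (hK : KillAlg M Lin a b (mul a) (mul b) sq)
    (hE : EndAlg M Lin J D mul sq th ze g s) : StmtEnd M := by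
  intro T
  obtain ⟨δ, C, K, hδ, h⟩ := hA N M Lin a b D mul sq th ze g s hK hE T
  obtain ⟨N0, hN0⟩ := hB δ C hδ
  refine ⟨K * N0, ?_⟩
  intro n R S U i1 i2 i3 π hout
  rcases Nat.eq_zero_or_pos n with rfl | hn
  · exact Nat.zero_le _
  obtain ⟨X, hX⟩ := h n R S U i1 i2 i3 π hn hout
  exact hX.trans (Nat.mul_le_mul_left _ (hN0 X))

end Pool.Agent.MF
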